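import Pool.Agent.J4H62.PG.Low2
import Pool.Agent.J4H62.PG.Up2
import Pool.Agent.N298.PGA.Num

set_option autoImplicit false

/-!
# The order of the Pure Greedy Algorithm, for the worst and for the best realization

Let `v` be the root of `v ^ v = (1 - v ^ 2) ^ (1 + v)` in `(0, 1)` and
`α = (1 - v) / (2 (1 + v)) = 0.1828…`. In every infinite-dimensional real Hilbert space the largest
error `γ(m)` of the Pure Greedy Algorithm after `m` steps, over all dictionaries, all `f ∈ A_1(D)` and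
all realizations, is of exact order `m ^ (-α)`. The same is true if for every `D` and `f` only the BEST
realization is counted: there are `D` and `f` with a slow, unique realization. The order does not
change either for weak greedy algorithms with weakness parameters `τ_k` close to `1`.

The starting library contains (`Pool.Agent.N298.PGA`, used there for another problem) an upper bound
`C m ^ (-α)` for all realizations of the Pure Greedy Algorithm, and a dictionary for which ONE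
realization has an error of at least `c m ^ (-α)`; the choice there is far from unique, the maximum is
attained by many elements in every step. New here: (a) all ties are broken (each element of the
dictionary gets a component in a fresh direction, of a size which decreases at the right speed), which
makes the slow realization the only one, also for weak greedy algorithms; (b) the upper bound for
weakness parameters `τ_k ≥ 1 - δ / k`.
-/

namespace Pool.Agent.Results.MP_19b6b2_an.ExactOrder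

open Pool.Agent.J4H62.PG
open N298.PGA (IsDictionary A10 A1 exists_root root_unique IsRoot)

universe u

theorem result :
    ∃ v : ℝ, (0 < v ∧ v < 1 ∧ v ^ v = (1 - v ^ 2) ^ (1 + v)) ∧
      (∀ u : ℝ, 0 < u → u < 1 → u ^ u = (1 - u ^ 2) ^ (1 + u) → u = v) ∧
      (59 / 127 < v ∧ v < 46 / 99) ∧
      ∃ c C δ : ℝ, 0 < c ∧ 0 < C ∧ 0 < δ ∧
        ∀ (H : Type u) [NormedAddCommGroup H] [InnerProductSpace ℝ H] [CompleteSpace H],
          ¬ FiniteDimensional ℝ H →
          -- the order of the worst and of the best realization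
          (∀ m : ℕ, 1 ≤ m →
            c * (m:ℝ) ^ (-((1 - v) / (2 * (1 + v)))) ≤ gamBest H m ∧
            gamBest H m ≤ gam H m ∧
            gam H m ≤ C * (m:ℝ) ^ (-((1 - v) / (2 * (1 + v))))) ∧
          -- the upper bound for weak greedy algorithms
          (∀ (D : Set H) (f : H) (τ : ℕ → ℝ) (m : ℕ) (φ G : ℕ → H),
            IsDictionary D → f ∈ A1 D → (∀ k : ℕ, 1 ≤ k → k ≤ m → 1 - δ / k ≤ τ k) →
            IsWGA D f τ m φ G → 1 ≤ m →
            ‖f - G m‖ ≤ C * (m:ℝ) ^ (-((1 - v) / (2 * (1 + v))))) ∧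
          -- one dictionary and one function with a unique, slow realization
          ∃ (D : Set H) (f : H) (φ0 G0 : ℕ → H), IsDictionary D ∧ f ∈ A1 D ∧
            (∀ m : ℕ, 1 ≤ m → c * (m:ℝ) ^ (-((1 - v) / (2 * (1 + v)))) ≤ ‖f - G0 m‖) ∧
            ∀ (τ : ℕ → ℝ) (m : ℕ),
              (∀ k : ℕ, 1 ≤ k → k ≤ m → 1 - δ * (k:ℝ) ^ (-(4/3) : ℝ) ≤ τ k ∧ τ k ≤ 1) →
              IsWGA D f τ m φ0 G0 ∧ ∀ φ G : ℕ → H, IsWGA D f τ m φ G →
                (∀ k < m, φ (k+1) = φ0 (k+1)) ∧ ∀ k ≤ m, G k = G0 k := by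
  obtain ⟨v, hv⟩ := exists_root
  refine ⟨v, ⟨hv.pos, hv.lt_one, hv.eq⟩, fun u h0 h1 h2 => root_unique ⟨h0, h1, h2⟩ hv,
    ⟨hv.lo2, hv.hi2⟩, ?_⟩
  obtain ⟨c, δ1, hc, hδ1, hlow⟩ := low.{u} hv
  obtain ⟨C, δ2, hC, hδ2, hup⟩ := up.{u} hv
  set α : ℝ := (1 - v) / (2 * (1 + v)) with hα
  refine ⟨c, C, min δ1 δ2, hc, hC, lt_min hδ1 hδ2, ?_⟩
  intro H _ _ _ hH
  obtain ⟨D, f, φ0, G0, hD, hf, hslow, huniq⟩ := hlow H hH
  -- upper bound for all errors of the PGA
  have hE : ∀ (D : Set H) (f : H) (m : ℕ) (e : ℝ), 1 ≤ m → IsDictionary D → f ∈ A1 D →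
      e ∈ errs D f m → e ≤ C * (m:ℝ) ^ (-α) := by
    rintro D f m e hm hD hf ⟨φ, G, hG, rfl⟩
    refine hup H D f _ m φ G hD hf (fun k hk _ => ?_) hG hm
    have : 0 ≤ δ2 / (k:ℝ) := by positivity
    linarith
  have hone : ∀ m : ℕ, IsWGA D f (fun _ => 1) m φ0 G0 ∧ ∀ φ G : ℕ → H,
      IsWGA D f (fun _ => 1) m φ G → (∀ k < m, φ (k+1) = φ0 (k+1)) ∧ ∀ k ≤ m, G k = G0 k := by
    intro m
    refine huniq (fun _ => 1) m (fun k _ _ => ⟨?_, le_rfl⟩)
    have : 0 ≤ δ1 * (k:ℝ) ^ (-(4/3) : ℝ) := by positivity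
    linarith
  have herr : ∀ m, errs D f m = {‖f - G0 m‖} := by
    intro m
    ext e
    constructor
    · rintro ⟨φ, G, hG, rfl⟩
      rw [((hone m).2 φ G hG).2 m le_rfl]; rfl
    · rintro rfl
      exact ⟨φ0, G0, (hone m).1, rfl⟩
  have hnn : ∀ (D : Set H) (f : H) (m : ℕ), BddBelow (errs D f m) := by
    intro D f m
    refine ⟨0, ?_⟩
    rintro e ⟨φ, G, -, rfl⟩
    exact norm_nonneg _
  refine ⟨fun m hm => ?_, fun D f τ m φ G hD hf hτ hG hm => ?_, D, f, φ0, G0, hD, hf, hslow,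
    fun τ m hτ => huniq τ m (fun k h1 h2 => ⟨?_, (hτ k h1 h2).2⟩)⟩
  · set S1 : Set ℝ := {e | ∃ (D : Set H) (f : H), IsDictionary D ∧ f ∈ A1 D ∧ e ∈ errs D f m} with hS1
    set S2 : Set ℝ := {e | ∃ (D : Set H) (f : H), IsDictionary D ∧ f ∈ A1 D ∧
      (errs D f m).Nonempty ∧ e = sInf (errs D f m)} with hS2
    have hb1 : ∀ e ∈ S1, e ≤ C * (m:ℝ) ^ (-α) := by
      rintro e ⟨D, f, hD, hf, he⟩
      exact hE D f m e hm hD hf he
    have hS1b : BddAbove S1 := ⟨_, hb1⟩
    have h21 : ∀ e ∈ S2, e ≤ sSup S1 := by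
      rintro e ⟨D, f, hD, hf, ⟨e', he'⟩, rfl⟩
      exact (csInf_le (hnn D f m) he').trans (le_csSup hS1b ⟨D, f, hD, hf, he'⟩)
    have hmem : ‖f - G0 m‖ ∈ S2 := by
      refine ⟨D, f, hD, hf, ?_, ?_⟩
      · rw [herr]; exact Set.singleton_nonempty _
      · rw [herr]; exact (csInf_singleton _).symm
    have hmem1 : ‖f - G0 m‖ ∈ S1 := ⟨D, f, hD, hf, by rw [herr]; rfl⟩
    refine ⟨(hslow m hm).trans ?_, ?_, ?_⟩
    · exact le_csSup ⟨_, h21⟩ hmem
    · exact csSup_le ⟨_, hmem⟩ h21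
    · exact csSup_le ⟨_, hmem1⟩ hb1
  · refine hup H D f τ m φ G hD hf (fun k hk hk2 => ?_) hG hm
    have h1 := hτ k hk hk2
    have h2 : min δ1 δ2 / (k:ℝ) ≤ δ2 / k := div_le_div_of_nonneg_right (min_le_right _ _) (by positivity)
    linarith
  · have h3 := (hτ k h1 h2).1
    have h4 : min δ1 δ2 * (k:ℝ) ^ (-(4/3) : ℝ) ≤ δ1 * (k:ℝ) ^ (-(4/3) : ℝ) :=
      mul_le_mul_of_nonneg_right (min_le_left _ _) (by positivity)
    linarith

end Pool.Agent.Results.MP_19b6b2_an.ExactOrder
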